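import Pool.Agent.Q286.EW.Stm

/-!
# Project EWC: cutting off the inverse transform
-/

set_option autoImplicit false
set_option maxHeartbeats 2000000

open Complex Filter Topology Set MeasureTheory Metric
open scoped ComplexConjugate FourierTransform

namespace Pool.Agent.Q285.EW

open Pool.Agent.Q286.EW
open Pool.Agent.Y23 (Fa TT Fa_bdd)
open Pool.Agent.Y23.G (line_shift line_ct)

lemma ck_pos {m : ℝ} (hm : 1 ≤ m) (k : ℝ) : 0 < ck m k := by
  unfold ck
  positivity

/-- double exponential decay -/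
lemma dbl {m k : ℝ} (hm : 1 ≤ m) {B : ℝ} (hB : 0 ≤ B) : ∃ C : ℝ, 0 < C ∧ ∀ b t : ℝ, 0 ≤ b → b ≤ t →
    Real.exp (B * (1 + t) - (ck m k) * Real.exp (2 * t / m)) * (1 + t ^ 2) ≤ C * Real.exp ((B + 1) * (1 + b) - (ck m k) * Real.exp (2 * b / m)) := by
  have hc := ck_pos hm k
  set c1 : ℝ := 2 * ck m k / m ^ 2 with hc1
  have hc10 : 0 < c1 := by positivity
  refine ⟨2 * Real.exp ((B + 1) ^ 2 / (4 * c1)), by positivity, fun b t hb hbt => ?_⟩
  set u := t - b with hu
  have hu0 : 0 ≤ u := by linarith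
  have ht0 : 0 ≤ t := hb.trans hbt
  have h1 : 1 + t ^ 2 ≤ 2 * Real.exp t := by
    have := Real.quadratic_le_exp_of_nonneg ht0
    nlinarith
  have h2 : Real.exp (2 * b / m) + 2 * u ^ 2 / m ^ 2 ≤ Real.exp (2 * t / m) := by
    have h3 : Real.exp (2 * t / m) = Real.exp (2 * b / m) * Real.exp (2 * u / m) := by
      rw [← Real.exp_add]; congr 1; rw [hu]; ring
    have h4 := Real.quadratic_le_exp_of_nonneg (x := 2 * u / m) (by positivity)
    have h5 : 1 ≤ Real.exp (2 * b / m) := Real.one_le_exp (by positivity)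
    have h6 : (2 * u / m) ^ 2 / 2 = 2 * u ^ 2 / m ^ 2 := by ring
    rw [h6] at h4
    have h7 : 0 ≤ 2 * u / m := by positivity
    have h8 : 0 ≤ 2 * u ^ 2 / m ^ 2 := by positivity
    rw [h3]
    nlinarith
  have h3 : (ck m k) * Real.exp (2 * b / m) + c1 * u ^ 2 ≤ (ck m k) * Real.exp (2 * t / m) := by
    have := mul_le_mul_of_nonneg_left h2 hc.le
    have e : (ck m k) * (Real.exp (2 * b / m) + 2 * u ^ 2 / m ^ 2) = (ck m k) * Real.exp (2 * b / m) + c1 * u ^ 2 := by
      rw [hc1]; ring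
    linarith
  have h4 : (B + 1) * u - c1 * u ^ 2 ≤ (B + 1) ^ 2 / (4 * c1) := by
    rw [le_div_iff₀ (by positivity)]
    nlinarith [sq_nonneg (B + 1 - 2 * c1 * u)]
  calc Real.exp (B * (1 + t) - (ck m k) * Real.exp (2 * t / m)) * (1 + t ^ 2)
      ≤ Real.exp (B * (1 + t) - (ck m k) * Real.exp (2 * t / m)) * (2 * Real.exp t) := by gcongr
    _ = 2 * Real.exp (B * (1 + t) - (ck m k) * Real.exp (2 * t / m) + t) := by rw [Real.exp_add]; ring
    _ ≤ 2 * Real.exp ((B + 1) ^ 2 / (4 * c1) + ((B + 1) * (1 + b) - (ck m k) * Real.exp (2 * b / m))) := by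
        refine mul_le_mul_of_nonneg_left (Real.exp_le_exp.2 ?_) (by norm_num)
        have : t = b + u := by rw [hu]; ring
        rw [this] at h3 ⊢
        nlinarith
    _ = _ := by rw [Real.exp_add]; ring

/-- the optimal line -/
lemma opt {m k : ℝ} (hm : 1 ≤ m) (hk : k ≤ 1 + Real.log (2 * Real.pi)) {A : ℝ} (hA : 0 ≤ A) (x : ℝ) : ∃ σ : ℝ, 0 ≤ σ ∧
    -(σ * |x|) + Ek m k A σ ≤ 4 * A * (1 + |x|) - ck m k * Real.exp (2 * |x| / m) := by
  have hm0 : (0 : ℝ) < m := by linarith
  have hx := abs_nonneg x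
  have hpi := Real.pi_pos
  set σ : ℝ := Real.exp (k - 1) * Real.exp (2 * |x| / m) with hσ
  have hσ0 : 0 < σ := by positivity
  refine ⟨σ, hσ0.le, ?_⟩
  have hlog : Real.log σ = k - 1 + 2 * |x| / m := by
    rw [hσ, Real.log_mul (by positivity) (by positivity), Real.log_exp, Real.log_exp]
  have h1 : m / 2 * (σ * (Real.log σ - k)) = σ * |x| - ck m k * Real.exp (2 * |x| / m) := by
    rw [hlog]
    have e : ck m k * Real.exp (2 * |x| / m) = m / 2 * σ := by unfold ck; rw [hσ]; ring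
    rw [e]
    field_simp
    ring
  have h2 : Real.log (2 + σ) ≤ 3 + 2 * |x| := by
    rw [Real.log_le_iff_le_exp (by positivity)]
    have h3 : Real.exp (k - 1) ≤ 7 := by
      have h3a : Real.exp (k - 1) ≤ Real.exp (Real.log (2 * Real.pi)) := Real.exp_le_exp.2 (by linarith)
      rw [Real.exp_log (by positivity)] at h3a
      have := Real.pi_lt_d2
      linarith
    have h4 : Real.exp (2 * |x| / m) ≤ Real.exp (2 * |x|) := by
      apply Real.exp_le_exp.2
      rw [div_le_iff₀ hm0]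
      nlinarith
    have h5 : 1 ≤ Real.exp (2 * |x|) := Real.one_le_exp (by positivity)
    have h6 : σ ≤ 7 * Real.exp (2 * |x|) := by
      rw [hσ]
      gcongr
    have h7 : (9 : ℝ) ≤ Real.exp 3 := by
      have := Real.exp_one_gt_d9
      have h8 : Real.exp 3 = Real.exp 1 ^ 3 := by rw [← Real.exp_nat_mul]; norm_num
      rw [h8]
      have : (2.7 : ℝ) ^ 3 ≤ Real.exp 1 ^ 3 := pow_le_pow_left₀ (by norm_num) (by linarith) 3
      norm_num at this
      linarith
    rw [Real.exp_add]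
    nlinarith
  unfold Ek
  rw [h1]
  nlinarith [mul_le_mul_of_nonneg_left h2 hA]

/-- the inverse transform -/
theorem inv_tr {m k : ℝ} (hm : 1 ≤ m) (hk : k ≤ 1 + Real.log (2 * Real.pi)) {A K : ℝ} (hA : 0 ≤ A) (hK : 0 < K) {H : ℂ → ℂ} (hH : Differentiable ℂ H)
    (hb : ∀ w, ‖H w‖ ≤ K * Real.exp (Ek m k A |w.re|) / (1 + w.im ^ 2)) :
    ∃ φ : ℝ → ℂ, Continuous φ ∧ (∀ x, ‖φ x‖ ≤ K * Real.exp (4 * A * (1 + |x|) - ck m k * Real.exp (2 * |x| / m))) ∧
      (∀ w : ℂ, Integrable (fun x : ℝ => φ x * cexp (w * x))) ∧ ∀ w : ℂ, ∫ x : ℝ, φ x * cexp (w * x) = H w := by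
  have hpi := Real.pi_pos
  set φ : ℝ → ℂ := fun x => 1 / (2 * Real.pi) * ∫ y : ℝ, H ⟨0, y⟩ * cexp (-(⟨0, y⟩ * x)) with hφ
  have hct : ∀ σ : ℝ, Continuous (fun y : ℝ => H ⟨σ, y⟩) := fun σ => hH.continuous.comp (line_ct σ)
  have hint : ∀ σ : ℝ, Integrable (fun y : ℝ => H ⟨σ, y⟩) := by
    intro σ
    refine (integrable_inv_one_add_sq.const_mul (K * Real.exp (Ek m k A |σ|))).mono' (hct σ).aestronglyMeasurable
      (Eventually.of_forall fun y => ?_)
    have := hb ⟨σ, y⟩
    rw [← div_eq_mul_inv]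
    exact this
  -- all lines
  have hshift : ∀ (σ x : ℝ), φ x = 1 / (2 * Real.pi) * ∫ y : ℝ, H ⟨σ, y⟩ * cexp (-(⟨σ, y⟩ * x)) := by
    intro σ x
    simp only [hφ]
    congr 1
    refine (line_shift (g := fun w => H w * cexp (-(w * x))) (hH.mul (by fun_prop)) (fun R => ?_) σ).symm
    -- a bound on the strip
    obtain ⟨M, hM⟩ : ∃ M : ℝ, ∀ t ∈ Icc (0 : ℝ) R, Real.exp (Ek m k A t) ≤ M := by
      have hcont : ContinuousOn (fun t : ℝ => Real.exp (Ek m k A t)) (Icc 0 R) := by
        unfold Ek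
        refine Real.continuous_exp.comp_continuousOn ?_
        refine ContinuousOn.add (ContinuousOn.add continuousOn_const (ContinuousOn.mul continuousOn_const ?_)) ?_
        · refine ContinuousOn.log (by fun_prop) fun t ht => ?_
          have := ht.1
          linarith
        · refine Continuous.continuousOn ?_
          have h1 : (fun t : ℝ => m / 2 * (t * (Real.log t - k))) = fun t : ℝ => m / 2 * (t * Real.log t - t * k) := by
            funext t; ring
          rw [h1]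
          exact continuous_const.mul (Real.continuous_mul_log.sub (by fun_prop))
      obtain ⟨M, hM⟩ := isCompact_Icc.exists_bound_of_continuousOn hcont
      exact ⟨M, fun t ht => (le_abs_self _).trans (hM t ht)⟩
    refine ⟨K * M * Real.exp (R * |x|), fun w hw => ?_⟩
    have h1 := hb w
    have h2 := hM |w.re| ⟨abs_nonneg _, hw⟩
    have hM0 : 0 ≤ M := (Real.exp_pos _).le.trans h2
    rw [norm_mul, Complex.norm_exp]
    have h3 : (-(w * (x : ℂ))).re ≤ R * |x| := by
      rw [Complex.neg_re, Complex.re_mul_ofReal]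
      calc -(w.re * x) ≤ |w.re * x| := neg_le_abs _
        _ = |w.re| * |x| := abs_mul _ _
        _ ≤ R * |x| := mul_le_mul_of_nonneg_right hw (abs_nonneg _)
    calc ‖H w‖ * Real.exp (-(w * (x : ℂ))).re ≤ (K * M / (1 + w.im ^ 2)) * Real.exp (R * |x|) := by
          refine mul_le_mul (h1.trans ?_) (Real.exp_le_exp.2 h3) (Real.exp_pos _).le (by positivity)
          gcongr
      _ = _ := by ring
  have hnorm : ∀ (σ x : ℝ), ‖φ x‖ ≤ K * Real.exp (-(σ * x) + Ek m k A |σ|) := by
    intro σ x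
    rw [hshift σ x, norm_mul]
    have h1 : ‖(1 / (2 * Real.pi) : ℂ)‖ = 1 / (2 * Real.pi) := by
      have : (1 / (2 * Real.pi) : ℂ) = ((1 / (2 * Real.pi) : ℝ) : ℂ) := by push_cast; ring
      rw [this, Complex.norm_real, Real.norm_eq_abs, abs_of_pos (by positivity)]
    have h2 : ‖∫ y : ℝ, H ⟨σ, y⟩ * cexp (-(⟨σ, y⟩ * x))‖ ≤ K * Real.exp (-(σ * x) + Ek m k A |σ|) * Real.pi := by
      calc ‖∫ y : ℝ, H ⟨σ, y⟩ * cexp (-(⟨σ, y⟩ * x))‖ ≤ ∫ y : ℝ, K * Real.exp (-(σ * x) + Ek m k A |σ|) * (1 + y ^ 2)⁻¹ := by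
            refine norm_integral_le_of_norm_le (integrable_inv_one_add_sq.const_mul _) (Eventually.of_forall fun y => ?_)
            rw [norm_mul, Complex.norm_exp]
            have h3 : (-((⟨σ, y⟩ : ℂ) * (x : ℂ))).re = -(σ * x) := by
              rw [Complex.neg_re, Complex.re_mul_ofReal]
            rw [h3, Real.exp_add]
            have h4 := hb ⟨σ, y⟩
            calc ‖H ⟨σ, y⟩‖ * Real.exp (-(σ * x)) ≤ (K * Real.exp (Ek m k A |σ|) / (1 + y ^ 2)) * Real.exp (-(σ * x)) :=
                  mul_le_mul_of_nonneg_right h4 (Real.exp_pos _).le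
              _ = _ := by rw [div_eq_mul_inv]; ring
        _ = _ := by rw [integral_const_mul, integral_univ_inv_one_add_sq]
    rw [h1]
    have h5 : 0 < K * Real.exp (-(σ * x) + Ek m k A |σ|) := by positivity
    calc 1 / (2 * Real.pi) * ‖∫ y : ℝ, H ⟨σ, y⟩ * cexp (-(⟨σ, y⟩ * x))‖ ≤
        1 / (2 * Real.pi) * (K * Real.exp (-(σ * x) + Ek m k A |σ|) * Real.pi) := by gcongr
      _ = K * Real.exp (-(σ * x) + Ek m k A |σ|) / 2 := by field_simp
      _ ≤ _ := by linarith
  have hdec : ∀ x, ‖φ x‖ ≤ K * Real.exp (4 * A * (1 + |x|) - ck m k * Real.exp (2 * |x| / m)) := by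
    intro x
    obtain ⟨σ, hσ, hopt⟩ := opt hm hk hA x
    rcases le_total 0 x with h | h
    · have h1 := hnorm σ x
      rw [abs_of_nonneg hσ] at h1
      rw [abs_of_nonneg h] at hopt ⊢
      exact h1.trans (mul_le_mul_of_nonneg_left (Real.exp_le_exp.2 hopt) hK.le)
    · have h1 := hnorm (-σ) x
      rw [abs_neg, abs_of_nonneg hσ] at h1
      rw [abs_of_nonpos h] at hopt ⊢
      refine h1.trans (mul_le_mul_of_nonneg_left (Real.exp_le_exp.2 ?_) hK.le)
      linarith
  have hcont : Continuous φ := by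
    simp only [hφ]
    refine continuous_const.mul ?_
    refine continuous_of_dominated (F := fun (x : ℝ) (y : ℝ) => H ⟨0, y⟩ * cexp (-(⟨0, y⟩ * x)))
      (bound := fun y => ‖H ⟨0, y⟩‖) (fun x => ?_) (fun x => ?_) (hint 0).norm (Eventually.of_forall fun y => ?_)
    · exact ((hct 0).mul (Complex.continuous_exp.comp (((line_ct 0).mul continuous_const).neg))).aestronglyMeasurable
    · refine Eventually.of_forall fun y => ?_
      rw [norm_mul, Complex.norm_exp]
      have h3 : (-((⟨0, y⟩ : ℂ) * (x : ℂ))).re = 0 := by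
        rw [Complex.neg_re, Complex.re_mul_ofReal, zero_mul, neg_zero]
      rw [h3, Real.exp_zero, mul_one]
    · fun_prop
  have hexpi : ∀ w : ℂ, Integrable (fun x : ℝ => φ x * cexp (w * x)) := by
    intro w
    obtain ⟨C, hC, hd⟩ := dbl (k := k) hm (B := 4 * A + |w.re|) (by positivity)
    set C2 := K * (C * Real.exp ((4 * A + |w.re| + 1) * (1 + 0) - ck m k * Real.exp (2 * 0 / m))) with hC2
    refine (integrable_inv_one_add_sq.const_mul C2).mono' (hcont.mul (by fun_prop)).aestronglyMeasurable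
      (Eventually.of_forall fun x => ?_)
    have hx := abs_nonneg x
    rw [norm_mul, Complex.norm_exp]
    have h3 : (w * (x : ℂ)).re ≤ |w.re| * (1 + |x|) := by
      rw [Complex.re_mul_ofReal]
      calc w.re * x ≤ |w.re * x| := le_abs_self _
        _ = |w.re| * |x| := abs_mul _ _
        _ ≤ _ := mul_le_mul_of_nonneg_left (by linarith) (abs_nonneg _)
    have h4 := hd 0 |x| le_rfl hx
    rw [sq_abs] at h4
    calc ‖φ x‖ * Real.exp (w * (x : ℂ)).re ≤ (K * Real.exp (4 * A * (1 + |x|) - ck m k * Real.exp (2 * |x| / m))) *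
          Real.exp (|w.re| * (1 + |x|)) := mul_le_mul (hdec x) (Real.exp_le_exp.2 h3) (Real.exp_pos _).le (by positivity)
      _ = K * Real.exp ((4 * A + |w.re|) * (1 + |x|) - ck m k * Real.exp (2 * |x| / m)) := by
          rw [mul_assoc, ← Real.exp_add]; congr 2; ring
      _ = K * (Real.exp ((4 * A + |w.re|) * (1 + |x|) - ck m k * Real.exp (2 * |x| / m)) * (1 + x ^ 2)) * (1 + x ^ 2)⁻¹ := by
          field_simp
      _ ≤ K * (C * Real.exp ((4 * A + |w.re| + 1) * (1 + 0) - ck m k * Real.exp (2 * 0 / m))) * (1 + x ^ 2)⁻¹ := by gcongr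
  refine ⟨φ, hcont, hdec, hexpi, fun w => ?_⟩
  -- Fourier inversion
  set g : ℝ → ℂ := fun y => H ⟨w.re, y⟩ with hg
  set ψ : ℝ → ℂ := fun x => φ x * cexp ((w.re : ℂ) * x) with hψ
  have hψi : Integrable ψ := hexpi (w.re : ℂ)
  have hF : ∀ ξ : ℝ, 𝓕 g ξ = 2 * Real.pi * ψ (2 * Real.pi * ξ) := by
    intro ξ
    rw [Real.fourier_real_eq_integral_exp_smul]
    simp only [hψ]
    rw [hshift w.re (2 * Real.pi * ξ)]
    have e1 : ∀ y : ℝ, cexp (((-2 * Real.pi * y * ξ : ℝ) : ℂ) * I) • g y =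
        cexp ((w.re : ℂ) * ((2 * Real.pi * ξ : ℝ) : ℂ)) * (H ⟨w.re, y⟩ * cexp (-(⟨w.re, y⟩ * ((2 * Real.pi * ξ : ℝ) : ℂ)))) := by
      intro y
      rw [smul_eq_mul, mul_left_comm, ← Complex.exp_add, mul_comm]
      congr 2
      rw [H370.mk_eq]
      push_cast
      ring
    simp only [e1]
    rw [integral_const_mul]
    have : (Real.pi : ℂ) ≠ 0 := by exact_mod_cast hpi.ne'
    field_simp
  have hFi : Integrable (𝓕 g) := by
    have h1 : Integrable (fun ξ : ℝ => (2 * Real.pi : ℂ) * ψ (2 * Real.pi * ξ)) :=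
      (hψi.comp_mul_left' (by positivity : (2 * Real.pi : ℝ) ≠ 0)).const_mul _
    exact h1.congr (Eventually.of_forall fun ξ => (hF ξ).symm)
  have hinv : 𝓕⁻ (𝓕 fun y : ℝ => H ⟨w.re, y⟩) w.im = H w :=
    congrFun ((hct w.re).fourierInv_fourier_eq (hint w.re) hFi) w.im
  rw [← hinv, Real.fourierInv_eq']
  have e3 : ∀ ξ : ℝ, cexp (((2 * Real.pi * inner ℝ ξ w.im : ℝ) : ℂ) * I) • 𝓕 (fun y : ℝ => H ⟨w.re, y⟩) ξ =
      2 * Real.pi * (fun x : ℝ => φ x * cexp (w * x)) (2 * Real.pi * ξ) := by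
    intro ξ
    have h5 : 𝓕 (fun y : ℝ => H ⟨w.re, y⟩) ξ = 2 * Real.pi * ψ (2 * Real.pi * ξ) := hF ξ
    rw [h5, smul_eq_mul]
    simp only [hψ]
    have h6 : inner ℝ ξ w.im = ξ * w.im := by
      simp [mul_comm]
    rw [h6]
    have h7 : w * ((2 * Real.pi * ξ : ℝ) : ℂ) = (w.re : ℂ) * ((2 * Real.pi * ξ : ℝ) : ℂ) + ((2 * Real.pi * (ξ * w.im) : ℝ) : ℂ) * I := by
      conv_lhs => rw [← Complex.re_add_im w]
      push_cast
      ring
    rw [h7, Complex.exp_add]
    ring
  simp only [e3]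
  rw [integral_const_mul]
  have h8 : (∫ x : ℝ, φ (2 * Real.pi * x) * cexp (w * ((2 * Real.pi * x : ℝ) : ℂ))) =
      |(2 * Real.pi)⁻¹| • ∫ x : ℝ, φ x * cexp (w * x) :=
    Measure.integral_comp_mul_left (fun x : ℝ => φ x * cexp (w * x)) (2 * Real.pi)
  rw [h8, abs_of_pos (by positivity), Complex.real_smul]
  have : (Real.pi : ℂ) ≠ 0 := by exact_mod_cast hpi.ne'
  push_cast
  field_simp

/-- **EW-CUT** -/
theorem cut : S_Cut := by
  intro m k A R hm hk hA hR
  obtain ⟨C0, hC0, hd⟩ := dbl (k := k) hm (B := 4 * A + R) (by positivity)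
  obtain ⟨C1, hC1, hd1⟩ := dbl (k := k) hm (B := 4 * A) (by positivity)
  have hpi := Real.pi_pos
  set C2 : ℝ := C1 * Real.exp ((4 * A + 1) * (1 + 0) - ck m k * Real.exp (2 * 0 / m)) with hC2
  have hC20 : 0 < C2 := by positivity
  refine ⟨4 * A + R + 1, C0 * Real.pi + C2, by positivity, by positivity, fun K H hK hH hb b hb0 => ?_⟩
  obtain ⟨φ, hφc, hφd, hφi, hφt⟩ := inv_tr hm hk hA hK hH hb
  set τ := Real.exp ((4 * A + R + 1) * (1 + b) - ck m k * Real.exp (2 * b / m)) with hτ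
  have hτ0 : 0 < τ := Real.exp_pos _
  set f : ℝ → ℂ := (Icc (-b) b).indicator φ with hf
  have hφ2 : ∀ x, ‖φ x‖ ≤ C2 * K := by
    intro x
    have h4 := hd1 0 |x| le_rfl (abs_nonneg x)
    rw [sq_abs, ← hC2] at h4
    have h5 : (0 : ℝ) ≤ x ^ 2 := sq_nonneg x
    have h6 : Real.exp (4 * A * (1 + |x|) - ck m k * Real.exp (2 * |x| / m)) ≤ C2 := by
      have h7 := Real.exp_pos (4 * A * (1 + |x|) - ck m k * Real.exp (2 * |x| / m))
      nlinarith
    refine (hφd x).trans ?_
    rw [mul_comm C2]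
    exact mul_le_mul_of_nonneg_left h6 hK.le
  have hf2 : ∀ x, ‖f x‖ ≤ (C0 * Real.pi + C2) * K := by
    intro x
    have h8 : 0 < C0 * Real.pi * K := by positivity
    have h9 : 0 < C2 * K := by positivity
    simp only [hf]
    by_cases h : x ∈ Icc (-b) b
    · rw [indicator_of_mem h]
      have := hφ2 x
      nlinarith
    · rw [indicator_of_notMem h, norm_zero]
      nlinarith
  have hfF : Fa b f := by
    refine Fa_bdd (hφc.aestronglyMeasurable.indicator measurableSet_Icc) (C := (C0 * Real.pi + C2) * K) hf2 (fun x hx => ?_)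
    simp only [hf]
    rw [indicator_of_notMem]
    rw [mem_Icc, ← abs_le, not_le]
    exact hx
  refine ⟨f, hfF, hf2, fun w hw => ?_⟩
  have h1 : TT f w - H w = ∫ x : ℝ, (f x - φ x) * cexp (w * x) := by
    rw [← hφt w]
    unfold TT
    rw [← integral_sub (hfF.integrable_mul (by fun_prop)) (hφi w)]
    refine integral_congr_ae (Eventually.of_forall fun x => ?_)
    simp only
    ring
  rw [h1]
  have key : ‖∫ x : ℝ, (f x - φ x) * cexp (w * x)‖ ≤ K * C0 * τ * Real.pi := by
    calc ‖∫ x : ℝ, (f x - φ x) * cexp (w * x)‖ ≤ ∫ x : ℝ, K * C0 * τ * (1 + x ^ 2)⁻¹ := by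
          refine norm_integral_le_of_norm_le (integrable_inv_one_add_sq.const_mul _) (Eventually.of_forall fun x => ?_)
          have hx2 : 0 < 1 + x ^ 2 := by positivity
          by_cases h : x ∈ Icc (-b) b
          · simp only [hf]
            rw [indicator_of_mem h, sub_self, zero_mul, norm_zero]
            positivity
          · simp only [hf]
            rw [indicator_of_notMem h, zero_sub, norm_mul, norm_neg, Complex.norm_exp]
            rw [mem_Icc, ← abs_le, not_le] at h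
            have h3 : (w * (x : ℂ)).re ≤ R * (1 + |x|) := by
              rw [Complex.re_mul_ofReal]
              calc w.re * x ≤ |w.re * x| := le_abs_self _
                _ = |w.re| * |x| := abs_mul _ _
                _ ≤ R * (1 + |x|) := mul_le_mul hw (by linarith) (abs_nonneg _) hR
            have h4 := hd b |x| hb0 h.le
            rw [sq_abs] at h4
            rw [← hτ] at h4
            rw [← div_eq_mul_inv, le_div_iff₀ hx2]
            calc ‖φ x‖ * Real.exp (w * (x : ℂ)).re * (1 + x ^ 2) ≤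
                (K * Real.exp (4 * A * (1 + |x|) - ck m k * Real.exp (2 * |x| / m)) * Real.exp (R * (1 + |x|))) * (1 + x ^ 2) := by
                  gcongr
                  exact hφd x
              _ = K * (Real.exp ((4 * A + R) * (1 + |x|) - ck m k * Real.exp (2 * |x| / m)) * (1 + x ^ 2)) := by
                  rw [mul_assoc K, ← Real.exp_add]
                  have : 4 * A * (1 + |x|) - ck m k * Real.exp (2 * |x| / m) + R * (1 + |x|) =
                    (4 * A + R) * (1 + |x|) - ck m k * Real.exp (2 * |x| / m) := by ring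
                  rw [this]; ring
              _ ≤ K * (C0 * τ) := mul_le_mul_of_nonneg_left h4 hK.le
              _ = _ := by ring
      _ = _ := by rw [integral_const_mul, integral_univ_inv_one_add_sq]
  refine key.trans ?_
  have h10 : 0 < K * (C2 * τ) := by positivity
  calc K * C0 * τ * Real.pi ≤ K * C0 * τ * Real.pi + K * (C2 * τ) := by linarith
    _ = _ := by ring

end Pool.Agent.Q285.EW
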