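import Pool.Agent.Q240.EW.Core
import Pool.Agent.Q240.EW.Stm3

/-! # Project EW2: Weil's form on combinations of functions concentrated at separated heights -/

set_option autoImplicit false
set_option maxHeartbeats 1000000

open Complex Filter Topology Set MeasureTheory
open scoped ComplexConjugate

namespace Pool.Agent.Q285.EW

open Pool.Agent.Y23 (TT Fa N2 QQ Zt mu GG rfZ rfZ_sub mu_rfZ Lg zsum_le zsummable)
open Pool.Agent.Q240.EW (zden GG_sum)

/-- the exponential against the quadratic weight -/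
lemma exp_quad {c1 : ℝ} (hc : 0 < c1) (y : ℝ) :
    Real.exp (-(c1 * |y| / 2)) ≤ (1 + 8 / c1 ^ 2) * (1 / (1 + y ^ 2)) := by
  have h1 := Real.quadratic_le_exp_of_nonneg (x := c1 * |y| / 2) (by positivity)
  rw [Real.exp_neg, ← one_div, mul_one_div, div_le_div_iff₀ (Real.exp_pos _) (by positivity)]
  have h0 : (c1 * |y| / 2) ^ 2 = c1 ^ 2 * y ^ 2 / 4 := by
    rw [div_pow, mul_pow, sq_abs]; norm_num
  have h2 : 1 + c1 ^ 2 * y ^ 2 / 8 ≤ Real.exp (c1 * |y| / 2) := by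
    have h3 : 0 ≤ c1 * |y| / 2 := by positivity
    rw [h0] at h1
    linarith
  have h4 : 0 ≤ 8 / c1 ^ 2 := by positivity
  have h5 : (1 + 8 / c1 ^ 2) * (1 + c1 ^ 2 * y ^ 2 / 8) = 1 + c1 ^ 2 * y ^ 2 / 8 + 8 / c1 ^ 2 + y ^ 2 := by
    field_simp
    ring
  have h6 : 0 ≤ c1 ^ 2 * y ^ 2 / 8 := by positivity
  calc 1 * (1 + y ^ 2) ≤ (1 + 8 / c1 ^ 2) * (1 + c1 ^ 2 * y ^ 2 / 8) := by rw [h5]; linarith
    _ ≤ _ := mul_le_mul_of_nonneg_left h2 (by positivity)

/-- the product of two concentrated functions at separated heights -/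
lemma cross {c1 v ti tj R θ N : ℝ} (hc : 0 < c1) (hR : R ≤ |ti - tj|) (hθ0 : 0 ≤ θ) (hθ1 : θ ≤ 1) (hN : 0 ≤ N)
    (hN2 : 1 / (1 + N) ^ 2 ≤ 1 / (1 + (v - 0) ^ 2)) :
    (Real.exp (-(c1 * |v - ti|)) + θ / (1 + N) ^ 2) * (Real.exp (-(c1 * |v - tj|)) + θ / (1 + N) ^ 2) ≤
      Real.exp (-(c1 * R / 2)) * ((1 + 8 / c1 ^ 2) * (1 / (1 + (v - ti) ^ 2))) + 3 * θ * (1 / (1 + (v - 0) ^ 2)) := by
  have h1 : (1 : ℝ) ≤ (1 + N) ^ 2 := by nlinarith
  set b : ℝ := θ / (1 + N) ^ 2 with hb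
  have hb0 : 0 ≤ b := by positivity
  have hb1 : b ≤ 1 := (div_le_self hθ0 h1).trans hθ1
  have hb2 : b ≤ θ * (1 / (1 + (v - 0) ^ 2)) := by
    rw [hb, div_eq_mul_one_div]
    exact mul_le_mul_of_nonneg_left hN2 hθ0
  have hi0 : 0 ≤ |v - ti| := abs_nonneg _
  have hj0 : 0 ≤ |v - tj| := abs_nonneg _
  have ha1 : Real.exp (-(c1 * |v - ti|)) ≤ 1 := Real.exp_le_one_iff.2 (by
    have : 0 ≤ c1 * |v - ti| := by positivity
    linarith)
  have ha2 : Real.exp (-(c1 * |v - tj|)) ≤ 1 := Real.exp_le_one_iff.2 (by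
    have : 0 ≤ c1 * |v - tj| := by positivity
    linarith)
  have h3 : R ≤ |v - ti| + |v - tj| := by
    refine hR.trans ?_
    have h := abs_sub_le ti v tj
    rw [abs_sub_comm ti v] at h
    exact h
  have h4 : Real.exp (-(c1 * |v - ti|)) * Real.exp (-(c1 * |v - tj|)) ≤
      Real.exp (-(c1 * R / 2)) * Real.exp (-(c1 * |v - ti| / 2)) := by
    rw [← Real.exp_add, ← Real.exp_add]
    apply Real.exp_le_exp.2
    nlinarith [mul_le_mul_of_nonneg_left h3 hc.le, mul_nonneg hc.le hj0]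
  have h5 := mul_le_mul_of_nonneg_left (exp_quad hc (v - ti)) (Real.exp_pos (-(c1 * R / 2))).le
  have h6 : b * Real.exp (-(c1 * |v - ti|)) ≤ b := mul_le_of_le_one_right hb0 ha1
  have h7 : b * Real.exp (-(c1 * |v - tj|)) ≤ b := mul_le_of_le_one_right hb0 ha2
  have h8 : b * b ≤ b := mul_le_of_le_one_right hb0 hb1
  nlinarith

/-- combinations -/
lemma comb {a : ℝ} {ν : ℕ∞} {m : ℕ} {f : Fin m → ℝ → ℂ} (hf : ∀ i, Y23.G.F.Hn a ν (f i)) (c : Fin m → ℂ)
    (s : Finset (Fin m)) : Y23.G.F.Hn a ν (fun x => ∑ i ∈ s, c i * f i x) ∧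
      ∀ w, TT (fun x => ∑ i ∈ s, c i * f i x) w = ∑ i ∈ s, c i * TT (f i) w := by
  classical
  induction s using Finset.induction_on with
  | empty =>
    simp only [Finset.sum_empty]
    exact ⟨Y23.G.F.Hn.zero, fun w => by unfold TT; simp⟩
  | insert i s hi ih =>
    have e : (fun x => ∑ k ∈ insert i s, c k * f k x) = fun x => (c i * f i x) + (∑ k ∈ s, c k * f k x) := by
      funext x
      rw [Finset.sum_insert hi]
    rw [e]
    refine ⟨((hf i).smul (c i)).add ih.1, fun w => ?_⟩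
    rw [Y23.TT_add ((hf i).smul (c i)).1 ih.1.1, Y23.TT_smul, ih.2 w, Finset.sum_insert hi]

/-- the pointwise bound for the product of two combinations -/
lemma pt {m : ℕ} (c F F' : Fin m → ℂ) (B : Fin m → Fin m → ℝ) (hB : ∀ i j, 0 ≤ B i j)
    (h : ∀ i j, i ≠ j → ‖F i‖ * ‖F' j‖ ≤ B i j) :
    ((∑ i, c i * F i) * conj (∑ j, c j * F' j)).re ≤ ∑ i, ‖c i‖ ^ 2 * (F i * conj (F' i)).re +
      ∑ i, ∑ j, ‖c i‖ * ‖c j‖ * B i j := by
  classical
  have e : ((∑ i, c i * F i) * conj (∑ j, c j * F' j)).re =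
      ∑ i, ∑ j, ((c i * F i) * conj (c j * F' j)).re := by
    rw [map_sum, Finset.sum_mul_sum, Complex.re_sum]
    refine Finset.sum_congr rfl fun i _ => ?_
    rw [Complex.re_sum]
  rw [e, ← Finset.sum_add_distrib]
  refine Finset.sum_le_sum fun i _ => ?_
  have e2 : ∑ j, ((c i * F i) * conj (c j * F' j)).re =
      ((c i * F i) * conj (c i * F' i)).re + ∑ j ∈ Finset.univ.erase i, ((c i * F i) * conj (c j * F' j)).re :=
    (Finset.add_sum_erase _ _ (Finset.mem_univ i)).symm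
  rw [e2]
  have e3 : ((c i * F i) * conj (c i * F' i)).re = ‖c i‖ ^ 2 * (F i * conj (F' i)).re := by
    have : (c i * F i) * conj (c i * F' i) = ((‖c i‖ ^ 2 : ℝ) : ℂ) * (F i * conj (F' i)) := by
      have h1 : ((‖c i‖ ^ 2 : ℝ) : ℂ) = c i * conj (c i) := by
        rw [Complex.mul_conj, Complex.normSq_eq_norm_sq]
      rw [h1, map_mul]; ring
    rw [this, Complex.re_ofReal_mul]
  rw [e3]
  refine add_le_add le_rfl ?_
  calc ∑ j ∈ Finset.univ.erase i, ((c i * F i) * conj (c j * F' j)).re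
      ≤ ∑ j ∈ Finset.univ.erase i, ‖c i‖ * ‖c j‖ * B i j := by
        refine Finset.sum_le_sum fun j hj => ?_
        have hij : i ≠ j := fun h => (Finset.mem_erase.1 hj).1 h.symm
        refine (Complex.re_le_norm _).trans ?_
        rw [norm_mul, norm_mul, Complex.norm_conj, norm_mul]
        have := mul_le_mul_of_nonneg_left (h i j hij) (mul_nonneg (norm_nonneg (c i)) (norm_nonneg (c j)))
        calc _ = ‖c i‖ * ‖c j‖ * (‖F i‖ * ‖F' j‖) := by ring
          _ ≤ _ := this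
    _ ≤ _ := Finset.sum_le_sum_of_subset_of_nonneg (Finset.erase_subset _ _) fun j _ _ =>
        mul_nonneg (mul_nonneg (norm_nonneg _) (norm_nonneg _)) (hB i j)

theorem mul : Pool.Agent.Q240.EW.S_Mul := by
  intro c1 hc1
  obtain ⟨K, hK, hKs⟩ := zsum_le
  set A : ℝ := 1 + 8 / c1 ^ 2 with hA
  have hA0 : 0 < A := by positivity
  refine ⟨K * (A + 3), by positivity, ?_⟩
  intro a ν m f t R D θ T c ha hf hR hD hθ0 hθ1 hT hsep hb
  obtain ⟨hH, hTT⟩ := comb hf c Finset.univ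
  refine ⟨hH, ?_, ?_⟩
  · set Z : ℝ → ℝ := fun t => ∑' ρ : Zt, (mu ρ : ℝ) * (1 / (1 + ((ρ : ℂ).im - t) ^ 2)) with hZ
    have hZs : ∀ t, HasSum (fun ρ : Zt => (mu ρ : ℝ) * (1 / (1 + ((ρ : ℂ).im - t) ^ 2))) (Z t) :=
      fun t => (zsummable t).hasSum
    have hQs : ∀ i, HasSum (fun ρ : Zt => (mu ρ : ℝ) * (GG (f i) (f i) ((ρ : ℂ) - 1 / 2)).re) (QQ (f i)) :=
      fun i => (GG_sum ha (hf i)).hasSum
    set E : ℝ := Real.exp (-(c1 * R / 2)) with hE
    have hE0 : 0 < E := Real.exp_pos _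
    -- the majorant
    have hmaj : HasSum (fun ρ : Zt => ∑ i, ‖c i‖ ^ 2 * ((mu ρ : ℝ) * (GG (f i) (f i) ((ρ : ℂ) - 1 / 2)).re) +
        ∑ i, ∑ j, ‖c i‖ * ‖c j‖ * D ^ 2 * (E * A * ((mu ρ : ℝ) * (1 / (1 + ((ρ : ℂ).im - t i) ^ 2))) +
          3 * θ * ((mu ρ : ℝ) * (1 / (1 + ((ρ : ℂ).im - 0) ^ 2)))))
        (∑ i, ‖c i‖ ^ 2 * QQ (f i) + ∑ i, ∑ j, ‖c i‖ * ‖c j‖ * D ^ 2 * (E * A * Z (t i) + 3 * θ * Z 0)) := by
      refine HasSum.add (hasSum_sum fun i _ => (hQs i).mul_left _) (hasSum_sum fun i _ => hasSum_sum fun j _ => ?_)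
      exact (((hZs (t i)).mul_left _).add ((hZs 0).mul_left _)).mul_left _
    have hpt : ∀ ρ : Zt, (mu ρ : ℝ) * (GG (fun x => ∑ i, c i * f i x) (fun x => ∑ i, c i * f i x) ((ρ : ℂ) - 1 / 2)).re ≤
        ∑ i, ‖c i‖ ^ 2 * ((mu ρ : ℝ) * (GG (f i) (f i) ((ρ : ℂ) - 1 / 2)).re) +
        ∑ i, ∑ j, ‖c i‖ * ‖c j‖ * D ^ 2 * (E * A * ((mu ρ : ℝ) * (1 / (1 + ((ρ : ℂ).im - t i) ^ 2))) +
          3 * θ * ((mu ρ : ℝ) * (1 / (1 + ((ρ : ℂ).im - 0) ^ 2)))) := by
      intro ρ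
      set w : ℂ := (ρ : ℂ) - 1 / 2 with hw
      have hwim : w.im = (ρ : ℂ).im := by rw [hw]; simp
      have hw'eq : ((rfZ ρ : Zt) : ℂ) - 1 / 2 = -conj w := rfZ_sub ρ
      have hnw' : ‖-conj w‖ = ‖w‖ := by rw [norm_neg]; exact Complex.norm_conj w
      have him' : ((rfZ ρ : Zt) : ℂ).im = (ρ : ℂ).im := by
        have h1 := congrArg Complex.im hw'eq
        simp only [Complex.sub_im, Complex.neg_im, Complex.conj_im, neg_neg] at h1
        rw [hwim] at h1
        simpa using h1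
      have hF : ∀ i, ‖TT (f i) w‖ ≤ D * (Real.exp (-(c1 * |(ρ : ℂ).im - t i|)) + θ / (1 + ‖w‖) ^ 2) := fun i => hb i ρ
      have hF' : ∀ i, ‖TT (f i) (-conj w)‖ ≤ D * (Real.exp (-(c1 * |(ρ : ℂ).im - t i|)) + θ / (1 + ‖w‖) ^ 2) := by
        intro i
        have h1 := hb i (rfZ ρ)
        rw [hw'eq, hnw', him'] at h1
        exact h1
      have hz := zden w
      rw [hwim] at hz
      set B : Fin m → Fin m → ℝ := fun i _ => D ^ 2 * (E * (A * (1 / (1 + ((ρ : ℂ).im - t i) ^ 2))) +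
          3 * θ * (1 / (1 + ((ρ : ℂ).im - 0) ^ 2))) with hB
      have hB0 : ∀ i j, 0 ≤ B i j := fun i j => by
        simp only [hB]
        positivity
      have hcr : ∀ i j, i ≠ j → ‖TT (f i) w‖ * ‖TT (f j) (-conj w)‖ ≤ B i j := by
        intro i j hij
        have h1 := mul_le_mul (hF i) (hF' j) (norm_nonneg _) (by positivity)
        refine h1.trans ?_
        have h2 := cross (v := (ρ : ℂ).im) (ti := t i) (tj := t j) (R := R) (θ := θ) (N := ‖w‖) hc1 (hsep i j hij) hθ0 hθ1 (norm_nonneg _) hz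
        simp only [hB]
        calc _ = D ^ 2 * ((Real.exp (-(c1 * |(ρ : ℂ).im - t i|)) + θ / (1 + ‖w‖) ^ 2) *
              (Real.exp (-(c1 * |(ρ : ℂ).im - t j|)) + θ / (1 + ‖w‖) ^ 2)) := by ring
          _ ≤ _ := mul_le_mul_of_nonneg_left h2 (by positivity)
      have hp := pt c (fun i => TT (f i) w) (fun i => TT (f i) (-conj w)) B hB0 hcr
      have hm0 : (0 : ℝ) ≤ (mu ρ : ℝ) := Nat.cast_nonneg _
      have hG : GG (fun x => ∑ i, c i * f i x) (fun x => ∑ i, c i * f i x) w =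
          (∑ i, c i * TT (f i) w) * conj (∑ j, c j * TT (f j) (-conj w)) := by
        unfold GG
        rw [hTT, hTT]
      rw [hG]
      refine (mul_le_mul_of_nonneg_left hp hm0).trans (le_of_eq ?_)
      rw [mul_add, Finset.mul_sum, Finset.mul_sum]
      congr 1
      · refine Finset.sum_congr rfl fun i _ => ?_
        unfold GG
        ring
      · refine Finset.sum_congr rfl fun i _ => ?_
        rw [Finset.mul_sum]
        refine Finset.sum_congr rfl fun j _ => ?_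
        simp only [hB]
        ring
    have hle : QQ (fun x => ∑ i, c i * f i x) ≤
        ∑ i, ‖c i‖ ^ 2 * QQ (f i) + ∑ i, ∑ j, ‖c i‖ * ‖c j‖ * D ^ 2 * (E * A * Z (t i) + 3 * θ * Z 0) :=
      hasSum_le hpt (GG_sum ha hH).hasSum hmaj
    refine hle.trans (add_le_add le_rfl ?_)
    have hsum : ∑ i, ∑ j, ‖c i‖ * ‖c j‖ * D ^ 2 * (E * A * Z (t i) + 3 * θ * Z 0) ≤
        ∑ i, ∑ j, ‖c i‖ * ‖c j‖ * D ^ 2 * (K * (A + 3) * Real.log (3 + T) * (E + θ)) := by
      refine Finset.sum_le_sum fun i _ => Finset.sum_le_sum fun j _ => ?_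
      refine mul_le_mul_of_nonneg_left ?_ (by positivity)
      have h1 : Z (t i) ≤ K * Real.log (3 + T) := by
        refine (hKs (t i)).trans (mul_le_mul_of_nonneg_left ?_ hK.le)
        unfold Lg
        exact Real.log_le_log (by positivity) (by linarith [hT i])
      have h2 : Z 0 ≤ K * Real.log (3 + T) := by
        refine (hKs 0).trans (mul_le_mul_of_nonneg_left ?_ hK.le)
        unfold Lg
        rw [abs_zero]
        exact Real.log_le_log (by positivity) (by linarith [hT i, abs_nonneg (t i)])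
      have hT0 : 0 ≤ T := (abs_nonneg (t i)).trans (hT i)
      have hlog : 0 ≤ Real.log (3 + T) := Real.log_nonneg (by linarith)
      have hKL : 0 ≤ K * Real.log (3 + T) := by positivity
      calc E * A * Z (t i) + 3 * θ * Z 0 ≤ E * A * (K * Real.log (3 + T)) + 3 * θ * (K * Real.log (3 + T)) :=
            add_le_add (mul_le_mul_of_nonneg_left h1 (by positivity)) (mul_le_mul_of_nonneg_left h2 (by positivity))
        _ ≤ E * (A + 3) * (K * Real.log (3 + T)) + (A + 3) * θ * (K * Real.log (3 + T)) := by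
            refine add_le_add (mul_le_mul_of_nonneg_right ?_ hKL) (mul_le_mul_of_nonneg_right ?_ hKL)
            · exact mul_le_mul_of_nonneg_left (by linarith) hE0.le
            · exact mul_le_mul_of_nonneg_right (by linarith) hθ0
        _ = _ := by ring
    refine hsum.trans (le_of_eq ?_)
    have e5 : ∑ i, ∑ j, ‖c i‖ * ‖c j‖ * D ^ 2 * (K * (A + 3) * Real.log (3 + T) * (E + θ)) =
        (∑ i, ‖c i‖) * (∑ j, ‖c j‖) * (D ^ 2 * (K * (A + 3) * Real.log (3 + T) * (E + θ))) := by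
      rw [Finset.sum_mul_sum, Finset.sum_mul]
      refine Finset.sum_congr rfl fun i _ => ?_
      rw [Finset.sum_mul]
      refine Finset.sum_congr rfl fun j _ => ?_
      ring
    rw [e5]
    ring
  · unfold N2
    have h1 : ∀ x : ℝ, ‖∑ i, c i * f i x‖ ^ 2 ≤ (m : ℝ) * ∑ i, ‖c i‖ ^ 2 * ‖f i x‖ ^ 2 := by
      intro x
      have h2 : ‖∑ i, c i * f i x‖ ≤ ∑ i, ‖c i‖ * ‖f i x‖ := by
        refine (norm_sum_le _ _).trans (le_of_eq ?_)
        exact Finset.sum_congr rfl fun i _ => norm_mul _ _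
      have h3 := sq_sum_le_card_mul_sum_sq (s := (Finset.univ : Finset (Fin m))) (f := fun i => ‖c i‖ * ‖f i x‖)
      rw [Finset.card_univ, Fintype.card_fin] at h3
      refine (pow_le_pow_left₀ (norm_nonneg _) h2 2).trans (h3.trans (le_of_eq ?_))
      congr 1
      exact Finset.sum_congr rfl fun i _ => mul_pow _ _ _
    have h4 : ∀ i, Integrable (fun x : ℝ => ‖c i‖ ^ 2 * ‖f i x‖ ^ 2) := fun i => ((hf i).1.sq_int).const_mul _
    have h5 : Integrable (fun x : ℝ => (m : ℝ) * ∑ i, ‖c i‖ ^ 2 * ‖f i x‖ ^ 2) :=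
      (integrable_finsetSum _ fun i _ => h4 i).const_mul _
    refine (integral_mono hH.1.sq_int h5 h1).trans (le_of_eq ?_)
    rw [integral_const_mul, integral_finsetSum _ fun i _ => h4 i]
    congr 1
    exact Finset.sum_congr rfl fun i _ => integral_const_mul _ _

end Pool.Agent.Q285.EW
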